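import Pool.Agent.Helper98.ZB.Stmts

open MeasureTheory Filter Topology Finset
open scoped ComplexConjugate

namespace Pool.Agent.Helper13.ZB

open Pool.Agent.Helper98.TW (SA jo bo cm AM UF BF Sys Lm IA LQ Inc sg Grp)
open Pool.Agent.Helper98.ZA (pr co Un Pe)
open Pool.Agent.Helper98.ZB
open Pool.Agent.Helper16.AZ (E Op)
open Matrix

variable {Y : Type} [MeasurableSpace Y]

/-- the matrix form of the coefficients -/
structure Mx (ν : Measure Y) (S : Y → Y) (u : ℕ → Y → ℂ) (k : ℕ) (ι : Type) [Fintype ι]
    [DecidableEq ι] (M : (Fin k → ℂ) → Matrix ι ι ℂ) (e : Y → ι → ℂ)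
    (c : (Fin k → ℂ) → ι → ℂ) : Prop where
  uni : ∀ z, M z ∈ unitary (Matrix ι ι ℂ)
  mM : ∀ i j, Measurable fun z => M z i j
  me : ∀ i, Measurable fun y => e y i
  le : ∀ y, ∑ i, ‖e y i‖ ^ 2 ≤ 1
  eqv : ∀ᵐ y ∂ν, ∀ i, e (S y) i = ∑ j, M (pr u k y) i j * e y j
  mc : ∀ i, Measurable fun z => c z i
  bc : ∃ b : ℝ, ∀ z i, ‖c z i‖ ≤ b

theorem pr_meas {S : Y → Y} {ν : Measure Y} {u : ℕ → Y → ℂ} (h : Tw ν S u) (k : ℕ) :
    Measurable (pr u k) := by
  refine measurable_pi_lambda _ fun i => h.meas i

theorem ofMx {ν : Measure Y} {S : Y → Y} {u : ℕ → Y → ℂ} {k : ℕ} {ι : Type} [Fintype ι]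
    [DecidableEq ι] {M : (Fin k → ℂ) → Matrix ι ι ℂ} {e : Y → ι → ℂ} {c : (Fin k → ℂ) → ι → ℂ}
    (h : Mx ν S u k ι M e c) : Co ν S u fun y => ∑ i, conj (c (pr u k y) i) * e y i := by
  classical
  let a := Fintype.equivFin ι
  let M' : (Fin k → ℂ) → Matrix (Fin (Fintype.card ι)) (Fin (Fintype.card ι)) ℂ :=
    fun z => Matrix.reindex a a (M z)
  refine ⟨k, Fintype.card ι, fun z => Matrix.toEuclideanCLM (𝕜 := ℂ) (M' z),
    fun y => WithLp.toLp 2 (fun i => e y (a.symm i)),
    fun z => WithLp.toLp 2 (fun i => c z (a.symm i)), ⟨?_, ?_, ?_, ?_, ?_⟩, ?_, ?_, ?_⟩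
  · intro z
    have h1 : M' z ∈ unitary (Matrix (Fin (Fintype.card ι)) (Fin (Fintype.card ι)) ℂ) := by
      have h0 := h.uni z
      rw [Unitary.mem_iff] at h0 ⊢
      constructor
      · have := congrArg (Matrix.reindex a a) h0.1
        simp only [M', Matrix.reindex_apply] at this ⊢
        rw [Matrix.star_eq_conjTranspose, Matrix.conjTranspose_submatrix,
          Matrix.submatrix_mul_equiv, ← Matrix.star_eq_conjTranspose, h0.1,
          Matrix.submatrix_one_equiv]
      · simp only [M', Matrix.reindex_apply]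
        rw [Matrix.star_eq_conjTranspose, Matrix.conjTranspose_submatrix,
          Matrix.submatrix_mul_equiv, ← Matrix.star_eq_conjTranspose, h0.2,
          Matrix.submatrix_one_equiv]
    rw [Unitary.mem_iff] at h1 ⊢
    rw [← map_star, ← map_mul, ← map_mul, h1.1, h1.2, map_one]
    exact ⟨rfl, rfl⟩
  · have h1 : (fun z => Matrix.toEuclideanCLM (𝕜 := ℂ) (M' z)) = fun z =>
        ∑ i, ∑ j, M z (a.symm i) (a.symm j) •
          Matrix.toEuclideanCLM (𝕜 := ℂ) (Matrix.single i j (1 : ℂ)) := by
      funext z
      conv_lhs => rw [Matrix.matrix_eq_sum_single (M' z)]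
      rw [map_sum]
      refine Finset.sum_congr rfl fun i _ => ?_
      rw [map_sum]
      refine Finset.sum_congr rfl fun j _ => ?_
      rw [← map_smul, Matrix.smul_single]
      simp [M']
    rw [h1]
    refine Finset.stronglyMeasurable_fun_sum _ fun i _ =>
      Finset.stronglyMeasurable_fun_sum _ fun j _ => ?_
    exact (h.mM _ _).stronglyMeasurable.smul_const _
  · refine (WithLp.measurable_toLp 2 _).comp (measurable_pi_lambda _ fun i => h.me _)
  · intro y
    rw [EuclideanSpace.norm_eq]
    refine Real.sqrt_le_one.mpr ?_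
    refine le_trans (le_of_eq ?_) (h.le y)
    exact Equiv.sum_comp a.symm (fun i => ‖e y i‖ ^ 2)
  · filter_upwards [h.eqv] with y hy
    rw [Matrix.toEuclideanCLM_toLp]
    congr 1
    funext i
    rw [hy]
    simp only [Matrix.mulVec, dotProduct, M', Matrix.reindex_apply, Matrix.submatrix_apply]
    exact (Equiv.sum_comp a.symm (fun j => M (pr u k y) (a.symm i) j * e y j)).symm
  · exact ((WithLp.measurable_toLp 2 _).comp
      (measurable_pi_lambda _ fun i => h.mc _)).stronglyMeasurable
  · obtain ⟨b, hb⟩ := h.bc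
    refine ⟨Real.sqrt (∑ _i : Fin (Fintype.card ι), b ^ 2), fun z => ?_⟩
    rw [EuclideanSpace.norm_eq]
    refine Real.sqrt_le_sqrt (Finset.sum_le_sum fun i _ => ?_)
    exact pow_le_pow_left₀ (norm_nonneg _) (hb z _) 2
  · funext y
    rw [PiLp.inner_apply]
    simp only [RCLike.inner_apply]
    rw [← Equiv.sum_comp a.symm]
    refine Finset.sum_congr rfl fun i _ => ?_
    exact mul_comm _ _

theorem toMx {ν : Measure Y} {S : Y → Y} {u : ℕ → Y → ℂ} {F : Y → ℂ} (h : Co ν S u F) :
    ∃ (k d : ℕ) (M : (Fin k → ℂ) → Matrix (Fin d) (Fin d) ℂ) (e : Y → Fin d → ℂ)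
      (c : (Fin k → ℂ) → Fin d → ℂ), Mx ν S u k (Fin d) M e c ∧
      F = fun y => ∑ i, conj (c (pr u k y) i) * e y i := by
  obtain ⟨k, d, φ, e, c, hE, hc, ⟨b, hb⟩, rfl⟩ := h
  refine ⟨k, d, fun z => (Matrix.toEuclideanCLM (𝕜 := ℂ)).symm (φ z), fun y i => e y i,
    fun z i => c z i, ⟨?_, ?_, ?_, ?_, ?_, ?_, ?_⟩, ?_⟩
  · intro z
    have h0 := hE.uni z
    have hA : Matrix.toEuclideanCLM (𝕜 := ℂ) ((Matrix.toEuclideanCLM (𝕜 := ℂ)).symm (φ z)) = φ z :=
      StarAlgEquiv.apply_symm_apply _ _
    set A := (Matrix.toEuclideanCLM (𝕜 := ℂ)).symm (φ z)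
    rw [Unitary.mem_iff] at h0 ⊢
    rw [← hA] at h0
    have hi : ∀ B C : Matrix (Fin d) (Fin d) ℂ, Matrix.toEuclideanCLM (𝕜 := ℂ) B =
        Matrix.toEuclideanCLM (𝕜 := ℂ) C → B = C := fun B C h =>
      (Matrix.toEuclideanCLM (n := Fin d) (𝕜 := ℂ)).injective h
    constructor
    · apply hi
      rw [map_mul, map_star, map_one]
      exact h0.1
    · apply hi
      rw [map_mul, map_star, map_one]
      exact h0.2
  · intro i j
    have h1 : ∀ T : Op d, (Matrix.toEuclideanCLM (𝕜 := ℂ)).symm T i j =
        (T (WithLp.toLp 2 (Pi.single j 1))) i := by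
      intro T
      have hA : Matrix.toEuclideanCLM (𝕜 := ℂ) ((Matrix.toEuclideanCLM (𝕜 := ℂ)).symm T) = T :=
        StarAlgEquiv.apply_symm_apply _ _
      set A := (Matrix.toEuclideanCLM (𝕜 := ℂ)).symm T
      rw [← hA, Matrix.toEuclideanCLM_toLp]
      simp
    simp only [h1]
    have h2 : StronglyMeasurable fun z => φ z (WithLp.toLp 2 (Pi.single j 1)) :=
      (ContinuousLinearMap.apply ℂ (E d) (WithLp.toLp 2 (Pi.single j 1))).continuous.comp_stronglyMeasurable hE.ms
    exact (EuclideanSpace.proj (𝕜 := ℂ) i).continuous.measurable.comp h2.measurable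
  · intro i
    exact (EuclideanSpace.proj (𝕜 := ℂ) i).continuous.measurable.comp hE.meas
  · intro y
    have := hE.le y
    rw [EuclideanSpace.norm_eq] at this
    exact Real.sqrt_le_one.mp this
  · filter_upwards [hE.eqv] with y hy i
    have h1 : ∀ (T : Op d) (x : E d), (T x) i = ∑ j, (Matrix.toEuclideanCLM (𝕜 := ℂ)).symm T i j * x j := by
      intro T x
      have hA : Matrix.toEuclideanCLM (𝕜 := ℂ) ((Matrix.toEuclideanCLM (𝕜 := ℂ)).symm T) = T :=
        StarAlgEquiv.apply_symm_apply _ _
      set A := (Matrix.toEuclideanCLM (𝕜 := ℂ)).symm T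
      rw [← hA]
      exact congrFun (Matrix.ofLp_toEuclideanCLM A x) i
    rw [hy, h1]
  · intro i
    exact (EuclideanSpace.proj (𝕜 := ℂ) i).continuous.measurable.comp hc.measurable
  · refine ⟨b, fun z i => le_trans ?_ (hb z)⟩
    exact PiLp.norm_apply_le (c z) i
  · funext y
    rw [PiLp.inner_apply]
    refine Finset.sum_congr rfl fun i _ => ?_
    rw [RCLike.inner_apply]
    exact mul_comm _ _

/-- change of the level -/
def cut {k K : ℕ} (h : k ≤ K) (z : Fin K → ℂ) : Fin k → ℂ := fun i => z (Fin.castLE h i)

theorem cut_meas {k K : ℕ} (h : k ≤ K) : Measurable (cut h) :=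
  measurable_pi_lambda _ fun i => measurable_pi_apply _

omit [MeasurableSpace Y] in
theorem cut_pr {u : ℕ → Y → ℂ} {k K : ℕ} (h : k ≤ K) (y : Y) : cut h (pr u K y) = pr u k y := rfl

theorem lift {ν : Measure Y} {S : Y → Y} {u : ℕ → Y → ℂ} {k K : ℕ} (hk : k ≤ K) {ι : Type}
    [Fintype ι] [DecidableEq ι] {M : (Fin k → ℂ) → Matrix ι ι ℂ} {e : Y → ι → ℂ}
    {c : (Fin k → ℂ) → ι → ℂ} (h : Mx ν S u k ι M e c) :
    Mx ν S u K ι (fun z => M (cut hk z)) e (fun z => c (cut hk z)) where
  uni z := h.uni _
  mM i j := (h.mM i j).comp (cut_meas hk)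
  me := h.me
  le := h.le
  eqv := by simpa only [cut_pr] using h.eqv
  mc i := (h.mc i).comp (cut_meas hk)
  bc := by
    obtain ⟨b, hb⟩ := h.bc
    exact ⟨b, fun _ i => hb _ i⟩

theorem st_ZDA : ST_ZDA := by
  intro Y _ ν _ S u hu
  refine ⟨?_, ?_, ?_, ?_, ?_, ?_, ?_⟩
  · rintro F hF
    obtain ⟨k, d, M, e, c, h, rfl⟩ := toMx hF
    constructor
    · refine Finset.measurable_sum _ fun i _ => ?_
      exact (Complex.continuous_conj.measurable.comp ((h.mc i).comp (pr_meas hu k))).mul (h.me i)
    · obtain ⟨b, hb⟩ := h.bc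
      refine ⟨∑ _i : Fin d, |b|, fun y => ?_⟩
      refine (norm_sum_le _ _).trans (Finset.sum_le_sum fun i _ => ?_)
      rw [norm_mul, Complex.norm_conj]
      have h1 : ‖e y i‖ ≤ 1 := by
        have h2 : ‖e y i‖ ^ 2 ≤ 1 :=
          (Finset.single_le_sum (f := fun i => ‖e y i‖ ^ 2) (fun j _ => by positivity)
            (Finset.mem_univ i)).trans (h.le y)
        nlinarith [norm_nonneg (e y i)]
      calc ‖c (pr u k y) i‖ * ‖e y i‖ ≤ |b| * 1 :=
            mul_le_mul ((hb _ _).trans (le_abs_self b)) h1 (norm_nonneg _) (abs_nonneg b)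
        _ = |b| := mul_one _
  · intro w
    have h : Mx ν S u 0 Unit (fun _ => 1) (fun _ _ => 1) (fun _ _ => conj w) := by
      refine ⟨fun z => one_mem _, fun i j => measurable_const, fun i => measurable_const,
        fun y => by simp, Eventually.of_forall fun y i => by simp, fun _ => measurable_const,
        ⟨‖w‖, fun z i => by simp⟩⟩
    have := ofMx h
    simpa using this
  · intro k
    obtain ⟨g, hg, hg'⟩ := hu.inc k
    classical
    let g' : (Fin k → ℂ) → ℂ := fun z => if ‖g z‖ = 1 then g z else 1
    have hg1 : ∀ z, ‖g' z‖ = 1 := by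
      intro z
      by_cases h : ‖g z‖ = 1
      · simp [g', h]
      · simp [g', h]
    have hg2 : Measurable g' := by
      refine Measurable.ite ?_ hg measurable_const
      exact hg.norm (measurableSet_singleton 1)
    have h : Mx ν S u k Unit (fun z => Matrix.of fun _ _ => g' z) (fun y _ => u k y) (fun _ _ => 1) := by
      refine ⟨?_, fun i j => hg2, fun i => hu.meas k, fun y => by simp [hu.norm k y], ?_,
        fun i => measurable_const, ⟨1, fun z i => by simp⟩⟩
      · intro z
        have h1 : conj (g' z) * g' z = 1 := by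
          rw [← Complex.normSq_eq_conj_mul_self, Complex.normSq_eq_norm_sq, hg1]; simp
        rw [Unitary.mem_iff]
        constructor
        · ext i j
          simp only [Matrix.mul_apply, Matrix.star_apply, Matrix.one_apply, Matrix.of_apply]
          simp only [Finset.univ_unique, Finset.sum_singleton]
          have : i = j := Subsingleton.elim _ _
          simp only [if_true]
          exact h1
        · ext i j
          simp only [Matrix.mul_apply, Matrix.star_apply, Matrix.one_apply, Matrix.of_apply]
          simp only [Finset.univ_unique, Finset.sum_singleton]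
          have : i = j := Subsingleton.elim _ _
          simp only [if_true]
          exact (mul_comm _ _).trans h1
      · filter_upwards [hg'] with y hy i
        have h1 : ‖g (pr u k y)‖ = 1 := by
          have := congrArg norm hy
          rw [norm_mul, hu.norm, hu.norm, one_mul] at this
          exact this.symm
        simp only [Finset.univ_unique]
        have h3 : Matrix.of (fun _ _ : Unit => g' (pr u k y)) i (default : Unit) =
            g (pr u k y) := by
          simp [g', h1]
        rw [Finset.sum_singleton, h3, hy, mul_comm]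
        rfl
    have := ofMx h
    simpa using this
  · intro k d φ e he i
    classical
    refine ⟨k, d, φ, e, fun _ => WithLp.toLp 2 (Pi.single i 1), he, stronglyMeasurable_const,
      ⟨‖(WithLp.toLp 2 (Pi.single i 1) : E d)‖, fun z => le_rfl⟩, ?_⟩
    funext y
    rw [PiLp.inner_apply]
    simp [RCLike.inner_apply, Pi.single_apply]
  · intro F F' hF hF'
    obtain ⟨k, d, M, e, c, h, rfl⟩ := toMx hF
    obtain ⟨k', d', M', e', c', h', rfl⟩ := toMx hF'
    have H := lift (le_max_left k k') h
    have H' := lift (le_max_right k k') h'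
    set K := max k k'
    have hs : (Real.sqrt 2) ^ 2 = 2 := Real.sq_sqrt (by norm_num)
    have hs0 : (0 : ℝ) < Real.sqrt 2 := Real.sqrt_pos.mpr (by norm_num)
    have hsc : ((Real.sqrt 2 : ℝ) : ℂ) ≠ 0 := by exact_mod_cast hs0.ne'
    let r : ℂ := ((Real.sqrt 2 : ℝ) : ℂ)
    have h1 : Mx ν S u K (Fin d ⊕ Fin d')
        (fun z => Matrix.fromBlocks (M (cut (le_max_left k k') z)) 0 0
          (M' (cut (le_max_right k k') z)))
        (fun y => Sum.elim (fun i => r⁻¹ * e y i) (fun i => r⁻¹ * e' y i))
        (fun z => Sum.elim (fun i => r * c (cut (le_max_left k k') z) i)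
          (fun i => r * c' (cut (le_max_right k k') z) i)) := by
      refine ⟨?_, ?_, ?_, ?_, ?_, ?_, ?_⟩
      · intro z
        have h0 := H.uni z
        have h0' := H'.uni z
        rw [Unitary.mem_iff] at h0 h0' ⊢
        simp only [Matrix.star_eq_conjTranspose] at h0 h0' ⊢
        constructor
        · rw [Matrix.fromBlocks_conjTranspose, Matrix.fromBlocks_multiply]
          simp only [Matrix.conjTranspose_zero, Matrix.mul_zero, Matrix.zero_mul, add_zero,
            zero_add]
          rw [h0.1, h0'.1, Matrix.fromBlocks_one]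
        · rw [Matrix.fromBlocks_conjTranspose, Matrix.fromBlocks_multiply]
          simp only [Matrix.conjTranspose_zero, Matrix.mul_zero, Matrix.zero_mul, add_zero,
            zero_add]
          rw [h0.2, h0'.2, Matrix.fromBlocks_one]
      · rintro (i | i) (j | j)
        · exact H.mM i j
        · exact measurable_const
        · exact measurable_const
        · exact H'.mM i j
      · rintro (i | i)
        · exact (H.me i).const_mul _
        · exact (H'.me i).const_mul _
      · intro y
        rw [Fintype.sum_sum_type]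
        simp only [Sum.elim_inl, Sum.elim_inr, norm_mul, mul_pow]
        have hr : ‖r⁻¹‖ ^ 2 = 1 / 2 := by
          rw [norm_inv, inv_pow]
          have : ‖r‖ = Real.sqrt 2 := by
            simp only [r]
            rw [Complex.norm_real, Real.norm_of_nonneg hs0.le]
          rw [this, hs]
          norm_num
        rw [hr, ← Finset.mul_sum, ← Finset.mul_sum]
        have := H.le y
        have := H'.le y
        linarith
      · filter_upwards [H.eqv, H'.eqv] with y hy hy' i
        rcases i with i | i
        · simp only [Sum.elim_inl, Fintype.sum_sum_type, Matrix.fromBlocks_apply₁₁,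
            Matrix.fromBlocks_apply₁₂, Sum.elim_inr, Matrix.zero_apply, zero_mul,
            Finset.sum_const_zero, add_zero]
          rw [hy i, Finset.mul_sum]
          refine Finset.sum_congr rfl fun j _ => by ring
        · simp only [Sum.elim_inl, Fintype.sum_sum_type, Matrix.fromBlocks_apply₂₁,
            Matrix.fromBlocks_apply₂₂, Sum.elim_inr, Matrix.zero_apply, zero_mul,
            Finset.sum_const_zero, zero_add]
          rw [hy' i, Finset.mul_sum]
          refine Finset.sum_congr rfl fun j _ => by ring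
      · rintro (i | i)
        · exact (H.mc i).const_mul _
        · exact (H'.mc i).const_mul _
      · obtain ⟨b, hb⟩ := H.bc
        obtain ⟨b', hb'⟩ := H'.bc
        refine ⟨‖r‖ * max b b', fun z i => ?_⟩
        rcases i with i | i
        · simp only [Sum.elim_inl, norm_mul]
          exact mul_le_mul_of_nonneg_left ((hb z i).trans (le_max_left _ _)) (norm_nonneg _)
        · simp only [Sum.elim_inr, norm_mul]
          exact mul_le_mul_of_nonneg_left ((hb' z i).trans (le_max_right _ _)) (norm_nonneg _)
    have h2 := ofMx h1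
    have h3 : (fun y => (∑ i, conj (c (pr u k y) i) * e y i) +
        ∑ i, conj (c' (pr u k' y) i) * e' y i) = fun y => ∑ i : Fin d ⊕ Fin d',
        conj (Sum.elim (fun i => r * c (cut (le_max_left k k') (pr u K y)) i)
          (fun i => r * c' (cut (le_max_right k k') (pr u K y)) i) i) *
          Sum.elim (fun i => r⁻¹ * e y i) (fun i => r⁻¹ * e' y i) i := by
      funext y
      have hrr : conj r = r := by simp [r, Complex.conj_ofReal]
      rw [Fintype.sum_sum_type]
      simp only [Sum.elim_inl, Sum.elim_inr, map_mul, hrr]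
      congr 1
      · refine Finset.sum_congr rfl fun i _ => ?_
        change _ = r * conj (c (pr u k y) i) * (r⁻¹ * e y i)
        field_simp [show r ≠ 0 from hsc]
      · refine Finset.sum_congr rfl fun i _ => ?_
        change _ = r * conj (c' (pr u k' y) i) * (r⁻¹ * e' y i)
        field_simp [show r ≠ 0 from hsc]
    rw [h3]
    exact h2
  · intro F F' hF hF'
    obtain ⟨k, d, M, e, c, h, rfl⟩ := toMx hF
    obtain ⟨k', d', M', e', c', h', rfl⟩ := toMx hF'
    have H := lift (le_max_left k k') h
    have H' := lift (le_max_right k k') h'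
    set K := max k k'
    have h1 : Mx ν S u K (Fin d × Fin d')
        (fun z => Matrix.kroneckerMap (· * ·) (M (cut (le_max_left k k') z))
          (M' (cut (le_max_right k k') z)))
        (fun y i => e y i.1 * e' y i.2)
        (fun z i => c (cut (le_max_left k k') z) i.1 * c' (cut (le_max_right k k') z) i.2) := by
      refine ⟨?_, ?_, ?_, ?_, ?_, ?_, ?_⟩
      · intro z
        have h0 := H.uni z
        have h0' := H'.uni z
        rw [Unitary.mem_iff] at h0 h0' ⊢
        simp only [Matrix.star_eq_conjTranspose] at h0 h0' ⊢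
        constructor
        · rw [Matrix.conjTranspose_kronecker, ← Matrix.mul_kronecker_mul, h0.1, h0'.1,
            Matrix.one_kronecker_one]
        · rw [Matrix.conjTranspose_kronecker, ← Matrix.mul_kronecker_mul, h0.2, h0'.2,
            Matrix.one_kronecker_one]
      · rintro ⟨i, i'⟩ ⟨j, j'⟩
        exact (H.mM i j).mul (H'.mM i' j')
      · rintro ⟨i, i'⟩
        exact (H.me i).mul (H'.me i')
      · intro y
        rw [Fintype.sum_prod_type]
        simp only [norm_mul, mul_pow]
        rw [← Finset.sum_mul_sum]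
        exact mul_le_one₀ (H.le y) (Finset.sum_nonneg fun i _ => by positivity) (H'.le y)
      · filter_upwards [H.eqv, H'.eqv] with y hy hy' i
        rw [hy i.1, hy' i.2, Finset.sum_mul_sum, Fintype.sum_prod_type]
        refine Finset.sum_congr rfl fun j _ => Finset.sum_congr rfl fun j' _ => ?_
        simp only [Matrix.kroneckerMap_apply]
        ring
      · rintro ⟨i, i'⟩
        exact (H.mc i).mul (H'.mc i')
      · obtain ⟨b, hb⟩ := H.bc
        obtain ⟨b', hb'⟩ := H'.bc
        refine ⟨|b| * |b'|, fun z i => ?_⟩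
        rw [norm_mul]
        exact mul_le_mul ((hb z i.1).trans (le_abs_self b)) ((hb' z i.2).trans (le_abs_self b'))
          (norm_nonneg _) (abs_nonneg _)
    have h2 := ofMx h1
    have h3 : (fun y => (∑ i, conj (c (pr u k y) i) * e y i) *
        ∑ i, conj (c' (pr u k' y) i) * e' y i) = fun y => ∑ i : Fin d × Fin d',
        conj (c (cut (le_max_left k k') (pr u K y)) i.1 *
          c' (cut (le_max_right k k') (pr u K y)) i.2) * (e y i.1 * e' y i.2) := by
      funext y
      rw [Finset.sum_mul_sum, Fintype.sum_prod_type]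
      refine Finset.sum_congr rfl fun j _ => Finset.sum_congr rfl fun j' _ => ?_
      rw [map_mul]
      change _ = conj (c (pr u k y) j) * conj (c' (pr u k' y) j') * (e y j * e' y j')
      ring
    rw [h3]
    exact h2
  · intro F hF
    obtain ⟨k, d, M, e, c, h, rfl⟩ := toMx hF
    have h1 : Mx ν S u k (Fin d) (fun z => (M z).map conj) (fun y i => conj (e y i))
        (fun z i => conj (c z i)) := by
      refine ⟨?_, ?_, ?_, ?_, ?_, ?_, ?_⟩
      · intro z
        have h0 := h.uni z
        rw [Unitary.mem_iff] at h0 ⊢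
        simp only [Matrix.star_eq_conjTranspose] at h0 ⊢
        have e1 : ((M z).map conj)ᴴ = ((M z)ᴴ).map conj := by
          ext i j; simp [Matrix.conjTranspose_apply]
        rw [e1]
        constructor
        · rw [← Matrix.map_mul, h0.1]
          exact Matrix.map_one _ (map_zero _) (map_one _)
        · rw [← Matrix.map_mul, h0.2]
          exact Matrix.map_one _ (map_zero _) (map_one _)
      · intro i j
        exact Complex.continuous_conj.measurable.comp (h.mM i j)
      · intro i
        exact Complex.continuous_conj.measurable.comp (h.me i)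
      · intro y
        simpa only [Complex.norm_conj] using h.le y
      · filter_upwards [h.eqv] with y hy i
        rw [hy i, map_sum]
        refine Finset.sum_congr rfl fun j _ => ?_
        rw [map_mul]
        rfl
      · intro i
        exact Complex.continuous_conj.measurable.comp (h.mc i)
      · obtain ⟨b, hb⟩ := h.bc
        exact ⟨b, fun z i => by rw [Complex.norm_conj]; exact hb z i⟩
    have h2 := ofMx h1
    have h3 : (fun y => conj (∑ i, conj (c (pr u k y) i) * e y i)) = fun y => ∑ i,
        conj (conj (c (pr u k y) i)) * conj (e y i) := by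
      funext y
      rw [map_sum]
      refine Finset.sum_congr rfl fun j _ => ?_
      rw [map_mul]
    rw [h3]
    exact h2

end Pool.Agent.Helper13.ZB

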